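import Pool.Agent.U115.WM.Stm

set_option autoImplicit false

open scoped Classical
open Matrix

namespace Pool.Agent.U283.WM.CNTL

open Pool.Agent.U115.WM

variable {n k : ℕ}

/-- the matrices `u` above the diagonal -/
noncomputable def uS (e : Fin k → ℕ) : Finset (Fin k × Fin k → ℤ) :=
  Fintype.piFinset fun p => if p.1 < p.2 then Finset.Ico 0 ((2 : ℤ) ^ (e p.2 - e p.1)) else {0}

lemma card_uS (e : Fin k → ℕ) : ((uS e).card : ℝ) = gap e := by
  unfold uS gap
  rw [Fintype.card_piFinset, Finset.prod_filter]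
  push_cast
  refine Finset.prod_congr rfl fun p _ => ?_
  split_ifs with h
  · rw [Int.card_Ico, sub_zero]
    have h1 : (((2 : ℤ) ^ (e p.2 - e p.1)).toNat : ℤ) = (2 : ℤ) ^ (e p.2 - e p.1) :=
      Int.toNat_of_nonneg (by positivity)
    exact_mod_cast h1
  · simp

/-- the unipotent matrix of `u` -/
def uM (u : Fin k × Fin k → ℤ) : Matrix (Fin k) (Fin k) ℤ := 1 + Matrix.of fun p q => u (p, q)

lemma uS_lt {e : Fin k → ℕ} {u : Fin k × Fin k → ℤ} (hu : u ∈ uS e) {p q : Fin k} (h : p < q) :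
    0 ≤ u (p, q) ∧ u (p, q) < (2 : ℤ) ^ (e q - e p) := by
  have h1 := Fintype.mem_piFinset.1 hu (p, q)
  simp only [h, if_true, Finset.mem_Ico] at h1
  exact h1

lemma uS_zero {e : Fin k → ℕ} {u : Fin k × Fin k → ℤ} (hu : u ∈ uS e) {p q : Fin k}
    (h : ¬ p < q) : u (p, q) = 0 := by
  have h1 := Fintype.mem_piFinset.1 hu (p, q)
  simp only [h, if_false, Finset.mem_singleton] at h1
  exact h1

lemma uM_diag {e : Fin k → ℕ} {u : Fin k × Fin k → ℤ} (hu : u ∈ uS e) (p : Fin k) :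
    uM u p p = 1 := by
  simp [uM, uS_zero hu (lt_irrefl p)]

lemma uM_lower {e : Fin k → ℕ} {u : Fin k × Fin k → ℤ} (hu : u ∈ uS e) {p q : Fin k}
    (h : q < p) : uM u p q = 0 := by
  simp [uM, uS_zero hu (not_lt.2 h.le), Matrix.one_apply_ne h.ne']

lemma uM_upper (u : Fin k × Fin k → ℤ) {p q : Fin k} (h : p < q) : uM u p q = u (p, q) := by
  simp [uM, Matrix.one_apply_ne h.ne]

lemma uM_det {e : Fin k → ℕ} {u : Fin k × Fin k → ℤ} (hu : u ∈ uS e) : (uM u).det = 1 := by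
  have h : (uM u).BlockTriangular id := fun i j h => uM_lower hu h
  rw [Matrix.det_of_isUpperTriangular h]
  exact Finset.prod_eq_one fun i _ => uM_diag hu i

lemma lat_mul (B : Matrix (Fin n) (Fin k) ℤ) {U : Matrix (Fin k) (Fin k) ℤ} (hU : U.det = 1) :
    lat (B * U) = lat B := by
  have hu : IsUnit U.det := by rw [hU]; exact isUnit_one
  ext v
  constructor
  · rintro ⟨c, rfl⟩
    exact ⟨U *ᵥ c, by simp [Matrix.mulVec_mulVec]⟩
  · rintro ⟨c, rfl⟩
    refine ⟨U⁻¹ *ᵥ c, ?_⟩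
    simp only [Matrix.mulVec_mulVec]
    rw [Matrix.mul_assoc, Matrix.mul_nonsing_inv _ hu, Matrix.mul_one]

lemma inj_cancel {B : Matrix (Fin n) (Fin k) ℤ} (hB : Inj B) {U V : Matrix (Fin k) (Fin k) ℤ}
    (h : B * U = B * V) : U = V := by
  ext p q
  have h1 : B *ᵥ (fun i => U i q - V i q) = 0 := by
    funext l
    have h2 : (B * U) l q = (B * V) l q := by rw [h]
    rw [Matrix.mul_apply, Matrix.mul_apply] at h2
    simp only [Matrix.mulVec, dotProduct, Pi.zero_apply, mul_sub, Finset.sum_sub_distrib]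
    linarith
  have h3 := congrFun (hB _ h1) p
  simp only [Pi.zero_apply] at h3
  linarith

lemma entry_le {B : Matrix (Fin n) (Fin k) ℤ} {e : Fin k → ℕ} (hB : ∀ i, N B i < 4 ^ (e i + 1))
    (l : Fin n) (i : Fin k) : |B l i| ≤ 2 ^ (e i + 1) := by
  have h1 : B l i ^ 2 ≤ N B i :=
    Finset.single_le_sum (f := fun l => B l i ^ 2) (fun l _ => sq_nonneg _) (Finset.mem_univ l)
  have h2 : B l i ^ 2 ≤ ((2 : ℤ) ^ (e i + 1)) ^ 2 := by
    rw [← pow_mul, mul_comm, pow_mul]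
    norm_num
    exact (h1.trans_lt (hB i)).le
  exact abs_le_of_sq_le_sq h2 (by positivity)

lemma prod_le {B : Matrix (Fin n) (Fin k) ℤ} {e : Fin k → ℕ} (he : Monotone e)
    (hB : ∀ i, N B i < 4 ^ (e i + 1)) {u : Fin k × Fin k → ℤ} (hu : u ∈ uS e) (l : Fin n)
    (q : Fin k) : |(B * uM u) l q| ≤ k * 2 ^ (e q + 1) := by
  rw [Matrix.mul_apply]
  refine (Finset.abs_sum_le_sum_abs _ _).trans ?_
  have h1 : ∀ p ∈ (Finset.univ : Finset (Fin k)), |B l p * uM u p q| ≤ 2 ^ (e q + 1) := by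
    intro p _
    rcases lt_trichotomy p q with h | h | h
    · rw [uM_upper u h, abs_mul]
      obtain ⟨h2, h3⟩ := uS_lt hu h
      rw [abs_of_nonneg h2]
      calc |B l p| * u (p, q) ≤ 2 ^ (e p + 1) * 2 ^ (e q - e p) :=
            mul_le_mul (entry_le hB l p) h3.le h2 (by positivity)
        _ = 2 ^ (e q + 1) := by
            rw [← pow_add]
            congr 1
            have := he h.le
            omega
    · subst h
      rw [uM_diag hu, mul_one]
      exact entry_le hB l p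
    · rw [uM_lower hu h, mul_zero, abs_zero]
      positivity
  refine (Finset.sum_le_sum h1).trans ?_
  simp

/-- the matrices with small entries -/
noncomputable def tS (n : ℕ) {k : ℕ} (e : Fin k → ℕ) : Finset (Fin n × Fin k → ℤ) :=
  Fintype.piFinset fun p => Finset.Icc (-((k : ℤ) * 2 ^ (e p.2 + 1))) ((k : ℤ) * 2 ^ (e p.2 + 1))

lemma card_tS (n : ℕ) {k : ℕ} (e : Fin k → ℕ) :
    ((tS n e).card : ℝ) ≤ (4 * k + 1) ^ (n * k) * vol e ^ n := by
  unfold tS
  rw [Fintype.card_piFinset]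
  push_cast
  have h1 : ∀ p : Fin n × Fin k,
      (((Finset.Icc (-((k : ℤ) * 2 ^ (e p.2 + 1))) ((k : ℤ) * 2 ^ (e p.2 + 1))).card : ℕ) : ℝ) ≤
        (4 * k + 1) * (2 : ℝ) ^ e p.2 := by
    intro p
    rw [Int.card_Icc]
    have h2 : (((k : ℤ) * 2 ^ (e p.2 + 1) + 1 - -((k : ℤ) * 2 ^ (e p.2 + 1))).toNat : ℤ) =
        4 * k * 2 ^ e p.2 + 1 := by
      rw [Int.toNat_of_nonneg (by
        have : (0 : ℤ) ≤ (k : ℤ) * 2 ^ (e p.2 + 1) := by positivity
        linarith)]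
      ring
    have h3 : (((k : ℤ) * 2 ^ (e p.2 + 1) + 1 - -((k : ℤ) * 2 ^ (e p.2 + 1))).toNat : ℝ) =
        4 * k * 2 ^ e p.2 + 1 := by
      exact_mod_cast h2
    rw [h3]
    have h4 : (1 : ℝ) ≤ 2 ^ e p.2 := one_le_pow₀ (by norm_num)
    nlinarith
  refine (Finset.prod_le_prod (fun _ _ => by positivity) (fun p _ => h1 p)).trans ?_
  rw [Finset.prod_mul_distrib]
  have h5 : ∏ p : Fin n × Fin k, (2 : ℝ) ^ e p.2 = vol e ^ n := by
    rw [← Finset.univ_product_univ, Finset.prod_product]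
    simp [vol]
  rw [h5]
  simp

theorem t_CNTL : S_CNTL := by
  intro n k
  refine ⟨(4 * k + 1) ^ (n * k), one_le_pow₀ (by
    have : (0 : ℝ) ≤ k := Nat.cast_nonneg k
    linarith), ?_⟩
  intro e he 𝓛 h𝓛
  choose! B hB1 hB2 hB3 using h𝓛
  refine le_trans ?_ (card_tS n e)
  rw [← card_uS]
  norm_cast
  rw [← Finset.card_product]
  refine Finset.card_le_card_of_injOn (fun x => fun p : Fin n × Fin k => (B x.1 * uM x.2) p.1 p.2)
    ?_ ?_
  · rintro ⟨Λ, u⟩ hx
    have hx := Finset.mem_product.1 (Finset.mem_coe.1 hx)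
    refine Finset.mem_coe.2 (Fintype.mem_piFinset.2 fun p => ?_)
    rw [Finset.mem_Icc, ← abs_le]
    exact prod_le he (hB3 Λ hx.1) hx.2 p.1 p.2
  · rintro ⟨Λ, u⟩ hx ⟨Λ', u'⟩ hx' h
    have hx := Finset.mem_product.1 (Finset.mem_coe.1 hx)
    have hx' := Finset.mem_product.1 (Finset.mem_coe.1 hx')
    have h1 : B Λ * uM u = B Λ' * uM u' := by
      ext l q
      exact congrFun h (l, q)
    have h2 : Λ = Λ' := by
      rw [← hB2 Λ hx.1, ← hB2 Λ' hx'.1, ← lat_mul (B Λ) (uM_det hx.2),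
        ← lat_mul (B Λ') (uM_det hx'.2), h1]
    subst h2
    have h3 := inj_cancel (hB1 Λ hx.1) h1
    have h4 : u = u' := by
      funext p
      have h5 := congrFun (congrFun h3 p.1) p.2
      simpa [uM] using h5
    rw [h4]

end Pool.Agent.U283.WM.CNTL
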